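import Pool.Agent.Helper57.LT4.Asm
import Pool.Agent.Helper57.LT4.Emb
import Pool.Agent.Helper57.LT4.Gen
import Pool.Agent.Helper57.LT4.Wn
import Pool.Agent.Helper57.LT4.Evc
import Pool.Agent.Helper57.LT4.Cv
import Pool.Agent.Helper57.LT4.Deg
import Pool.Agent.W630.LT.Symm

/-!
# Lagrangian tori in `ℝ^{2n}` which are not Lagrangian isotopic to the Clifford torus: all `n ≥ 4`

MP_a67bd8_gt, Q1.  The theorem answers the question for every `n ≥ 4`; only `n = 3` remains (the
start library has `n ≥ 5`, `Pool.Agent.W630.LT`, with another torus: its construction needs three
parameters besides two coordinates).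

The torus is explicit.  `g = (g1, g2) : T³ → S³ ⊂ ℂ²` (formulas in `Helper57/LT4/Stm.lean`) is a
family, over `y ∈ T²`, of closed curves which are positively transverse to the contact planes of
`S³`; the degree of `g` is odd.  Some curves of the family are double circles, but the two sheets
have different moments `Im ⟨g, ∂_j g⟩ / Im ⟨g, ∂_x g⟩`.  Rescaling the curves in their complex lines
one gets an isotropic torus `T³` in `ℂ² × ℂ²`, whose two last coordinates are
`√(C - moment) e(y_j)`; adding a small circle in the complex direction orthogonal to `g`, and
`n - 4` further parameters on which the curves do not depend, one gets a Lagrangian torus `Tⁿ`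
in `ℂⁿ`, embedded for a small circle.  The Gauss map of the torus (the differential
`T³ → GL(n, ℂ)`) has on the subtorus `(x, y)` the same degree as `g`, which is odd, while the degree
is even, for every parametrisation and every subtorus `T³`, for a torus isotopic to the Clifford
torus (the generator of `H³(U)` is twice a class on `O`).

Parts of the proof: embedding (`t_EMB`, helper4), reduction of the differential to a `2 × 2` block
(`t_GEN`, helper62), the block (`t_WN`, helper42), evenness (`t_EVC`, helper74), the properties of
`g` (`t_CV`) and its degree (`t_DEG`) (helper20); moments, family, assembly: helper57.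
-/

open Pool.Agent.W630.LT Pool.Agent.Helper57.LT4

/-- For every `n ≥ 4` the Clifford torus is a Lagrangian torus and there is a Lagrangian torus in
`ℝ^{2n}` which is not Lagrangian isotopic to the Clifford torus. -/
theorem Pool.Agent.Results.MP_a67bd8_gt.AllFromFour.result (n : ℕ) (hn : 4 ≤ n) :
    IsLagrangianTorus (cliffordTorus n) ∧
      ∃ L : Set (Fin n → ℂ), IsLagrangianTorus L ∧
        ¬ LagrangianIsotopic (cliffordTorus n) L ∧ ¬ LagrangianIsotopic L (cliffordTorus n) := by
  obtain ⟨L, hL, h⟩ := not_isotopic (t_EMB t_LAM) t_GEN (t_WN t_LAM) t_EVC t_CV t_DEG n hn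
  exact ⟨isLagrangianTorus_clifford (by omega), L, hL, h, fun h' => h h'.symm⟩
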